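import Mathlib

/-!
# Weak c-Wilf equivalence of complementary signatures

For a weakly increasing `b`, the cyclic permutations that are increasing on the level sets of `b`
and those that are decreasing on them are both determined by their itineraries: sort these
lexicographically in the first case and in the alternating lexicographic order in the second. For
`n % 4 ≠ 2` the itineraries of different points are different in both cases, so re-sorting gives
injections both ways. Hence `#{π cyclic : Des π ⊆ J} = #{π cyclic : Asc π ⊆ J}` for each `J`, and the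
same holds with `=` in place of `⊆`; having a `σ`-segmentation depends on the descent set only.
-/

set_option autoImplicit false

namespace Pool.Agent.Results.MP_d71793_co.ComplementSignature

open Finset Equiv

/-- the permutation consists of a single `n`-cycle -/
def Cyclic {n : ℕ} (π : Perm (Fin n)) : Prop := ∀ x y : Fin n, ∃ m : ℕ, (π ^ m) x = y

/-- `π` has a `σ`-segmentation, with `true` for `+` and `false` for `-`; positions are counted from
`0`, so that the block number `i` consists of the positions `x` with `e i ≤ x < e (i + 1)` -/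
def HasSeg {k n : ℕ} (σ : Fin k → Bool) (π : Perm (Fin n)) : Prop :=
  ∃ e : Fin (k + 1) → ℕ, e 0 = 0 ∧ e (Fin.last k) = n ∧ Monotone e ∧
    ∀ i : Fin k, ∀ x y : Fin n, e i.castSucc ≤ x → x < y → (y : ℕ) < e i.succ →
      if σ i = true then π x < π y else π y < π x

/-- the number of cyclic permutations of `n` letters in the `σ`-class -/
noncomputable def count {k : ℕ} (σ : Fin k → Bool) (n : ℕ) : ℕ :=
  Nat.card {π : Perm (Fin n) // Cyclic π ∧ HasSeg σ π}

/-! ### itineraries -/

/-- `π x < π y` or `π y < π x` according to the sign -/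
def Rel (s : Bool) {n : ℕ} (x y : Fin n) : Prop := if s = true then x < y else y < x

/-- cyclic and increasing (decreasing) on the level sets of `b` -/
def Cl (s : Bool) {n : ℕ} (b : Fin n → ℕ) (π : Perm (Fin n)) : Prop :=
  Cyclic π ∧ ∀ x y, x < y → b x = b y → Rel s (π x) (π y)

/-- the sign of the `i`-th comparison -/
def sg (s : Bool) (i : ℕ) : Prop := s = true ∨ Even i

instance (s : Bool) (i : ℕ) : Decidable (sg s i) := by unfold sg; infer_instance

/-- the itinerary of `x`, with signs -/
def key (s : Bool) {n : ℕ} (b : Fin n → ℕ) (π : Perm (Fin n)) (x : Fin n) : Lex (ℕ → ℤ) :=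
  toLex (fun i => if sg s i then (b ((π ^ i) x) : ℤ) else - (b ((π ^ i) x) : ℤ))

theorem key_inj_iff {s s' : Bool} {n : ℕ} {b : Fin n → ℕ} {π π' : Perm (Fin n)} {x y : Fin n} :
    key s b π x = key s b π' y → key s' b π x = key s' b π' y := by
  intro h
  have h' : ∀ i, b ((π ^ i) x) = b ((π' ^ i) y) := by
    intro i
    have := congrFun (toLex.injective h) i
    split_ifs at this <;> omega
  unfold key
  congr 1
  funext i
  rw [h' i]

theorem iter {s : Bool} {n : ℕ} {b : Fin n → ℕ} {π : Perm (Fin n)} (h : Cl s b π) {x y : Fin n}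
    (hxy : x < y) (i : ℕ) (hi : ∀ j < i, b ((π ^ j) x) = b ((π ^ j) y)) :
    if sg s i then (π ^ i) x < (π ^ i) y else (π ^ i) y < (π ^ i) x := by
  induction i with
  | zero => simpa [sg] using hxy
  | succ i ih =>
    have h1 := ih (fun j hj => hi j (by omega))
    have h2 := hi i (by omega)
    rw [pow_succ', Perm.mul_apply, Perm.mul_apply]
    by_cases c : sg s i
    · rw [if_pos c] at h1
      have h3 := h.2 _ _ h1 h2
      unfold Rel at h3
      cases s with
      | true =>
        rw [if_pos rfl] at h3
        rw [if_pos (show sg true (i + 1) from Or.inl rfl)]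
        exact h3
      | false =>
        have c' : Even i := by simpa [sg] using c
        rw [if_neg (by simp)] at h3
        rw [if_neg (show ¬ sg false (i + 1) by
          unfold sg
          rintro (h | h)
          · exact Bool.noConfusion h
          · exact (Nat.even_add_one.1 h) c')]
        exact h3
    · rw [if_neg c] at h1
      have h3 := h.2 _ _ h1 h2.symm
      unfold Rel at h3
      cases s with
      | true => exact absurd (Or.inl rfl) c
      | false =>
        have c' : ¬ Even i := by simpa [sg] using c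
        rw [if_neg (by simp)] at h3
        rw [if_pos (show sg false (i + 1) from Or.inr (Nat.even_add_one.2 c'))]
        exact h3

/-- an order preserving map along an orbit has a fixed point -/
theorem no_drift {n : ℕ} (g : Perm (Fin n)) (x : Fin n)
    (h : ∀ m : ℕ, ((g ^ m) x < (g ^ (m + 1)) x → (g ^ (m + 1)) x < (g ^ (m + 2)) x) ∧
      ((g ^ (m + 1)) x < (g ^ m) x → (g ^ (m + 2)) x < (g ^ (m + 1)) x)) : g x = x := by
  have hper : (g ^ orderOf g) x = x := by rw [pow_orderOf_eq_one]; rfl
  have hpos : 0 < orderOf g := orderOf_pos g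
  rcases lt_trichotomy (g x) x with h1 | h1 | h1
  · exfalso
    have h2 : ∀ m, (g ^ (m + 1)) x < (g ^ m) x := by
      intro m
      induction m with
      | zero => simpa using h1
      | succ m ih => exact (h m).2 ih
    have h3 : ∀ m, 0 < m → (g ^ m) x < x := by
      intro m hm
      induction m, hm using Nat.le_induction with
      | base => simpa using h1
      | succ m _ ih => exact (h2 m).trans ih
    exact absurd (h3 _ hpos) (by rw [hper]; exact lt_irrefl _)
  · exact h1
  · exfalso
    have h2 : ∀ m, (g ^ m) x < (g ^ (m + 1)) x := by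
      intro m
      induction m with
      | zero => simpa using h1
      | succ m ih => exact (h m).1 ih
    have h3 : ∀ m, 0 < m → x < (g ^ m) x := by
      intro m hm
      induction m, hm using Nat.le_induction with
      | base => simpa using h1
      | succ m _ ih => exact ih.trans (h2 m)
    exact absurd (h3 _ hpos) (by rw [hper]; exact lt_irrefl _)

theorem minimalPeriod_eq {n : ℕ} {π : Perm (Fin n)} (h : Cyclic π) (x : Fin n) :
    Function.minimalPeriod π x = n := by
  have h1 : (Function.minimalPeriod π x) = Fintype.card (Fin n) := by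
    rw [← card_range (Function.minimalPeriod π x), ← card_univ]
    apply card_bij (fun i _ => (π ^ i) x)
    · intro i _; exact mem_univ _
    · intro i hi j hj hij
      rw [mem_range] at hi hj
      have : Set.InjOn (fun k => π^[k] x) (Set.Iio (Function.minimalPeriod π x)) :=
        Function.iterate_injOn_Iio_minimalPeriod
      apply this hi hj
      simp only
      rw [Perm.iterate_eq_pow, Perm.iterate_eq_pow]
      exact hij
    · intro y _
      obtain ⟨m, hm⟩ := h x y
      have hp : 0 < Function.minimalPeriod π x := by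
        apply Function.minimalPeriod_pos_of_mem_periodicPts
        refine ⟨orderOf π, orderOf_pos π, ?_⟩
        rw [Function.IsPeriodicPt, Function.IsFixedPt, Perm.iterate_eq_pow, pow_orderOf_eq_one]
        rfl
      refine ⟨m % Function.minimalPeriod π x, ?_, ?_⟩
      · rw [mem_range]; exact Nat.mod_lt _ hp
      · rw [← hm]
        have := Function.iterate_mod_minimalPeriod_eq (f := π) (x := x) (n := m)
        rw [Perm.iterate_eq_pow, Perm.iterate_eq_pow] at this
        exact this
  rwa [Fintype.card_fin] at h1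

theorem key_injective {s s' : Bool} {n : ℕ} (hn : n % 4 ≠ 2) {b : Fin n → ℕ} {π : Perm (Fin n)}
    (h : Cl s b π) : Function.Injective (key s' b π) := by
  intro x y hxy
  obtain ⟨d, hd⟩ := h.1 x y
  have hb : ∀ i, b ((π ^ i) x) = b ((π ^ (i + d)) x) := by
    intro i
    have := congrFun (toLex.injective hxy) i
    rw [pow_add, Perm.mul_apply, hd]
    split_ifs at this <;> omega
  have hb' : ∀ m i, b ((π ^ i) x) = b ((π ^ (i + m * d)) x) := by
    intro m i
    induction m with
    | zero => simp
    | succ m ih =>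
      rw [ih, hb (i + m * d)]
      congr 3
      ring
  -- `π ^ e` preserves the order of points of the orbit of `π ^ d`, for `sg s e`
  have step : ∀ e p q, sg s e → ((π ^ (p * d)) x < (π ^ (q * d)) x) →
      (π ^ (e + p * d)) x < (π ^ (e + q * d)) x := by
    intro e p q he hlt
    have := iter h hlt e (by
      intro j _
      rw [← Perm.mul_apply, ← pow_add, ← Perm.mul_apply, ← pow_add, ← hb' p j, ← hb' q j])
    rw [if_pos he, ← Perm.mul_apply, ← pow_add, ← Perm.mul_apply, ← pow_add] at this
    exact this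
  have fix : ∀ t, sg s (t * d) → (π ^ (t * d)) x = x := by
    intro t ht
    apply no_drift
    intro m
    have e0 : ∀ m, ((π ^ (t * d)) ^ m) x = (π ^ ((t * m) * d)) x := by
      intro m
      rw [← pow_mul]
      congr 2
      ring
    rw [e0, e0, e0]
    have e1 : t * (m + 1) * d = t * d + (t * m) * d := by ring
    have e2 : t * (m + 2) * d = t * d + (t * (m + 1)) * d := by ring
    constructor
    · intro h1
      have := step (t * d) _ _ ht h1
      rwa [← e1, ← e2] at this
    · intro h1
      have := step (t * d) _ _ ht h1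
      rwa [← e1, ← e2] at this
  by_cases hs : sg s d
  · have := fix 1 (by simpa using hs)
    rw [one_mul, hd] at this
    exact this.symm
  · have hodd : ¬ Even d := fun he => hs (Or.inr he)
    have h2 := fix 2 (Or.inr (by simp))
    have h3 : n ∣ 2 * d := by
      rw [← minimalPeriod_eq h.1 x]
      apply Function.IsPeriodicPt.minimalPeriod_dvd
      rw [Function.IsPeriodicPt, Function.IsFixedPt, Perm.iterate_eq_pow]
      exact h2
    by_cases hnd : n ∣ d
    · rw [← hd]
      rw [← minimalPeriod_eq h.1 x] at hnd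
      have := Function.isPeriodicPt_iff_minimalPeriod_dvd.2 hnd
      rw [Function.IsPeriodicPt, Function.IsFixedPt, Perm.iterate_eq_pow] at this
      exact this.symm
    · exfalso
      rcases Nat.even_or_odd' n with ⟨p, hp | hp⟩
      · obtain ⟨q, hq⟩ := h3
        have h5 : d = p * q := by
          rw [hp, mul_assoc] at hq
          omega
        rcases Nat.even_or_odd' p with ⟨r, hr | hr⟩
        · apply hodd
          rw [h5, hr, mul_assoc]
          exact even_two_mul _
        · omega
      · have : Nat.Coprime n 2 := by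
          rw [Nat.coprime_two_right]
          exact ⟨p, hp⟩
        exact hnd (this.dvd_of_dvd_mul_left h3)

theorem lt_iff {s : Bool} {n : ℕ} (hn : n % 4 ≠ 2) {b : Fin n → ℕ} (hb : Monotone b)
    {π : Perm (Fin n)} (h : Cl s b π) : StrictMono (key s b π) := by
  intro x y hxy
  have hne : key s b π x ≠ key s b π y := fun he => hxy.ne (key_injective hn h he)
  have hex : ∃ i, b ((π ^ i) x) ≠ b ((π ^ i) y) := by
    by_contra hc
    push Not at hc
    apply hne
    unfold key
    congr 1
    funext i
    rw [hc i]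
  classical
  obtain ⟨i, hi, hmin⟩ : ∃ i, b ((π ^ i) x) ≠ b ((π ^ i) y) ∧
      ∀ j < i, b ((π ^ j) x) = b ((π ^ j) y) :=
    ⟨Nat.find hex, Nat.find_spec hex, fun j hj => not_not.1 (Nat.find_min hex hj)⟩
  refine ⟨i, ?_, ?_⟩
  · intro j hj
    change (if sg s j then (b ((π ^ j) x) : ℤ) else - (b ((π ^ j) x) : ℤ)) =
      (if sg s j then (b ((π ^ j) y) : ℤ) else - (b ((π ^ j) y) : ℤ))
    rw [hmin j hj]
  · change (if sg s i then (b ((π ^ i) x) : ℤ) else - (b ((π ^ i) x) : ℤ)) <
      (if sg s i then (b ((π ^ i) y) : ℤ) else - (b ((π ^ i) y) : ℤ))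
    have h1 := iter h hxy i hmin
    split_ifs with c
    · rw [if_pos c] at h1
      have := hb h1.le
      omega
    · rw [if_neg c] at h1
      have := hb h1.le
      omega

/-! ### re-sorting -/

/-- the permutation that sorts the itineraries with the sign `s'` -/
noncomputable def srt (s' : Bool) {n : ℕ} (b : Fin n → ℕ) (π : Perm (Fin n)) : Perm (Fin n) :=
  Tuple.sort (key s' b π)

/-- the re-sorted permutation -/
noncomputable def F (s' : Bool) {n : ℕ} (b : Fin n → ℕ) (π : Perm (Fin n)) : Perm (Fin n) :=
  (srt s' b π)⁻¹ * π * srt s' b π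

theorem strictMono_srt {s s' : Bool} {n : ℕ} (hn : n % 4 ≠ 2) {b : Fin n → ℕ}
    {π : Perm (Fin n)} (h : Cl s b π) : StrictMono (key s' b π ∘ srt s' b π) :=
  (Tuple.monotone_sort (key s' b π)).strictMono_of_injective
    ((key_injective hn h).comp (srt s' b π).injective)

theorem b_le_of_key_le {s' : Bool} {n : ℕ} {b : Fin n → ℕ} {π π' : Perm (Fin n)} {x y : Fin n}
    (h : key s' b π x < key s' b π' y) : b x ≤ b y := by
  obtain ⟨i, h1, h2⟩ := h
  have e : ∀ (π : Perm (Fin n)) z, (if sg s' 0 then (b ((π ^ 0) z) : ℤ) else - (b ((π ^ 0) z) : ℤ)) = b z := by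
    intro π z
    rw [if_pos (show sg s' 0 from Or.inr (by simp))]
    rfl
  rcases Nat.eq_zero_or_pos i with h0 | h0
  · subst h0
    change (if sg s' 0 then (b ((π ^ 0) x) : ℤ) else - (b ((π ^ 0) x) : ℤ)) <
      (if sg s' 0 then (b ((π' ^ 0) y) : ℤ) else - (b ((π' ^ 0) y) : ℤ)) at h2
    rw [e, e] at h2
    omega
  · have h3 := h1 0 h0
    change (if sg s' 0 then (b ((π ^ 0) x) : ℤ) else - (b ((π ^ 0) x) : ℤ)) =
      (if sg s' 0 then (b ((π' ^ 0) y) : ℤ) else - (b ((π' ^ 0) y) : ℤ)) at h3
    rw [e, e] at h3
    omega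

theorem b_srt {s s' : Bool} {n : ℕ} (hn : n % 4 ≠ 2) {b : Fin n → ℕ} (hb : Monotone b)
    {π : Perm (Fin n)} (h : Cl s b π) (x : Fin n) : b (srt s' b π x) = b x := by
  have h1 : Monotone (b ∘ srt s' b π) := by
    intro x y hxy
    rcases hxy.lt_or_eq with h2 | h2
    · have := b_le_of_key_le (s' := s') (b := b) (π := π) (π' := π) (strictMono_srt hn h h2)
      exact this
    · rw [h2]
  have h2 := Tuple.unique_monotone (f := b) (σ := srt s' b π) (τ := 1) h1 (by simpa using hb)
  have := congrFun h2 x
  simpa using this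

theorem F_pow {s' : Bool} {n : ℕ} {b : Fin n → ℕ} {π : Perm (Fin n)} (i : ℕ) (x : Fin n) :
    (F s' b π ^ i) x = (srt s' b π)⁻¹ ((π ^ i) (srt s' b π x)) := by
  have : F s' b π ^ i = (srt s' b π)⁻¹ * π ^ i * srt s' b π := by
    unfold F
    have := conj_pow (i := i) (a := (srt s' b π)⁻¹) (b := π)
    rw [inv_inv] at this
    exact this
  rw [this]
  rfl

theorem key_F {s s' : Bool} {n : ℕ} (hn : n % 4 ≠ 2) {b : Fin n → ℕ} (hb : Monotone b)
    {π : Perm (Fin n)} (h : Cl s b π) (t : Bool) (x : Fin n) :
    key t b (F s' b π) x = key t b π (srt s' b π x) := by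
  unfold key
  congr 1
  funext i
  have : b ((F s' b π ^ i) x) = b ((π ^ i) (srt s' b π x)) := by
    rw [F_pow, ← b_srt (s' := s') hn hb h]; simp
  rw [this]

theorem Cl_F {s s' : Bool} {n : ℕ} (hn : n % 4 ≠ 2) {b : Fin n → ℕ} (hb : Monotone b)
    {π : Perm (Fin n)} (h : Cl s b π) : Cl s' b (F s' b π) := by
  constructor
  · intro x y
    obtain ⟨m, hm⟩ := h.1 (srt s' b π x) (srt s' b π y)
    refine ⟨m, ?_⟩
    rw [F_pow, hm]; simp
  · intro x y hxy hbxy
    have h1 : key s' b (F s' b π) x < key s' b (F s' b π) y := by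
      rw [key_F hn hb h, key_F hn hb h]
      exact strictMono_srt hn h hxy
    have hsm : StrictMono (key s' b (F s' b π)) := by
      intro x y hxy
      rw [key_F hn hb h, key_F hn hb h]
      exact strictMono_srt hn h hxy
    obtain ⟨i, h2, h3⟩ := h1
    have hi : i ≠ 0 := by
      rintro rfl
      change (if sg s' 0 then (b ((F s' b π ^ 0) x) : ℤ) else - (b ((F s' b π ^ 0) x) : ℤ)) <
        (if sg s' 0 then (b ((F s' b π ^ 0) y) : ℤ) else - (b ((F s' b π ^ 0) y) : ℤ)) at h3
      rw [if_pos (show sg s' 0 from Or.inr (by simp)),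
        if_pos (show sg s' 0 from Or.inr (by simp))] at h3
      simp only [pow_zero, Perm.one_apply] at h3
      omega
    obtain ⟨i, rfl⟩ : ∃ j, i = j + 1 := ⟨i - 1, by omega⟩
    set P := F s' b π with hP
    have h4 : ∀ j < i, b ((P ^ j) (P x)) = b ((P ^ j) (P y)) := by
      intro j hj
      have := h2 (j + 1) (by omega)
      change (if sg s' (j + 1) then (b ((P ^ (j + 1)) x) : ℤ) else - (b ((P ^ (j + 1)) x) : ℤ)) =
        (if sg s' (j + 1) then (b ((P ^ (j + 1)) y) : ℤ) else - (b ((P ^ (j + 1)) y) : ℤ)) at this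
      rw [pow_succ, Perm.mul_apply, Perm.mul_apply] at this
      split_ifs at this <;> omega
    change (if sg s' (i + 1) then (b ((P ^ (i + 1)) x) : ℤ) else - (b ((P ^ (i + 1)) x) : ℤ)) <
      (if sg s' (i + 1) then (b ((P ^ (i + 1)) y) : ℤ) else - (b ((P ^ (i + 1)) y) : ℤ)) at h3
    rw [pow_succ, Perm.mul_apply, Perm.mul_apply] at h3
    -- comparison of the keys of `P x` and `P y`
    have cmp : ∀ u v : Fin n, (∀ j < i, b ((P ^ j) u) = b ((P ^ j) v)) →
        (if sg s' i then (b ((P ^ i) u) : ℤ) < b ((P ^ i) v) else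
          (b ((P ^ i) v) : ℤ) < b ((P ^ i) u)) → u < v := by
      intro u v huv hlt
      rw [← hsm.lt_iff_lt]
      refine ⟨i, ?_, ?_⟩
      · intro j hj
        change (if sg s' j then (b ((P ^ j) u) : ℤ) else - (b ((P ^ j) u) : ℤ)) =
          (if sg s' j then (b ((P ^ j) v) : ℤ) else - (b ((P ^ j) v) : ℤ))
        rw [huv j hj]
      · change (if sg s' i then (b ((P ^ i) u) : ℤ) else - (b ((P ^ i) u) : ℤ)) <
          (if sg s' i then (b ((P ^ i) v) : ℤ) else - (b ((P ^ i) v) : ℤ))
        split_ifs with c
        · rw [if_pos c] at hlt; exact hlt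
        · rw [if_neg c] at hlt; omega
    unfold Rel
    cases s' with
    | true =>
      rw [if_pos rfl]
      apply cmp _ _ h4
      have c1 : sg true i := Or.inl rfl
      have c2 : sg true (i + 1) := Or.inl rfl
      rw [if_pos c2, if_pos c2] at h3
      rw [if_pos c1]
      exact h3
    | false =>
      rw [if_neg (by simp)]
      apply cmp _ _ (fun j hj => (h4 j hj).symm)
      by_cases c : Even i
      · have c1 : sg false i := Or.inr c
        have c2 : ¬ sg false (i + 1) := by
          rintro (h | h)
          · exact Bool.noConfusion h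
          · exact (Nat.even_add_one.1 h) c
        rw [if_neg c2, if_neg c2] at h3
        rw [if_pos c1]
        omega
      · have c1 : ¬ sg false i := by
          rintro (h | h)
          · exact Bool.noConfusion h
          · exact c h
        have c2 : sg false (i + 1) := Or.inr (Nat.even_add_one.2 c)
        rw [if_pos c2, if_pos c2] at h3
        rw [if_neg c1]
        exact h3

theorem F_inj {s s' : Bool} {n : ℕ} (hn : n % 4 ≠ 2) {b : Fin n → ℕ} (hb : Monotone b)
    {π₁ π₂ : Perm (Fin n)} (h₁ : Cl s b π₁) (h₂ : Cl s b π₂) (h : F s' b π₁ = F s' b π₂) :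
    π₁ = π₂ := by
  have e : key s b π₁ ∘ srt s' b π₁ = key s b π₂ ∘ srt s' b π₂ := by
    funext x
    simp only [Function.comp_apply]
    rw [← key_F hn hb h₁, ← key_F hn hb h₂, h]
  have m1 : Monotone (key s b π₁) := (lt_iff hn hb h₁).monotone
  have m2 : Monotone (key s b π₂) := (lt_iff hn hb h₂).monotone
  set K' := key s b π₁ ∘ srt s' b π₁ with hK'
  have e1 : key s b π₁ = K' ∘ ((srt s' b π₁)⁻¹ : Perm (Fin n)) := by
    funext x; simp [hK']
  have e2 : key s b π₂ = K' ∘ ((srt s' b π₂)⁻¹ : Perm (Fin n)) := by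
    rw [e]; funext x; simp
  have hu := Tuple.unique_monotone (f := K') (e1 ▸ m1) (e2 ▸ m2)
  have hinj : Function.Injective K' := (key_injective hn h₁).comp (srt s' b π₁).injective
  have hρ : srt s' b π₁ = srt s' b π₂ := by
    apply inv_injective
    ext x
    have := congrFun hu x
    simp only [Function.comp_apply] at this
    rw [hinj this]
  unfold F at h
  rw [hρ] at h
  have h' := mul_right_cancel h
  exact mul_left_cancel h'

theorem card_le (s s' : Bool) {n : ℕ} (hn : n % 4 ≠ 2) {b : Fin n → ℕ} (hb : Monotone b) :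
    Nat.card {π // Cl s b π} ≤ Nat.card {π // Cl s' b π} :=
  Nat.card_le_card_of_injective (fun π => ⟨F s' b π.1, Cl_F hn hb π.2⟩) (by
    rintro ⟨π₁, h₁⟩ ⟨π₂, h₂⟩ h
    exact Subtype.ext (F_inj hn hb h₁ h₂ (congrArg Subtype.val h)))

/-! ### descent sets -/

/-- the positions `k` at which `π k`, `π (k + 1)` are not in the relation `s`: descents for
`s = true`, ascents for `s = false` -/
def V (s : Bool) {n : ℕ} (π : Perm (Fin n)) : Finset ℕ :=
  (range n).filter (fun k => ∃ h : k + 1 < n,
    if s = true then π ⟨k + 1, h⟩ < π ⟨k, by omega⟩ else π ⟨k, by omega⟩ < π ⟨k + 1, h⟩)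

theorem rel_iff_notMem {s : Bool} {n : ℕ} {π : Perm (Fin n)} {k : ℕ} (h : k + 1 < n) :
    Rel s (π ⟨k, by omega⟩) (π ⟨k + 1, h⟩) ↔ k ∉ V s π := by
  have hne : π ⟨k, by omega⟩ ≠ π ⟨k + 1, h⟩ := fun he => by
    have := π.injective he
    rw [Fin.mk.injEq] at this
    omega
  unfold Rel V
  rw [mem_filter, mem_range]
  cases s with
  | true =>
    rw [if_pos rfl]
    simp only [if_true]
    constructor
    · rintro h1 ⟨_, _, h2⟩
      exact absurd (h1.trans h2) (lt_irrefl _)
    · intro h1
      by_contra hc
      exact h1 ⟨by omega, h, lt_of_le_of_ne (not_lt.1 hc) hne.symm⟩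
  | false =>
    rw [if_neg (by simp)]
    simp only [Bool.false_eq_true, if_false]
    constructor
    · rintro h1 ⟨_, _, h2⟩
      exact absurd (h1.trans h2) (lt_irrefl _)
    · intro h1
      by_contra hc
      exact h1 ⟨by omega, h, lt_of_le_of_ne (not_lt.1 hc) hne⟩

theorem rel_not_iff_mem {s : Bool} {n : ℕ} {π : Perm (Fin n)} {k : ℕ} (h : k + 1 < n) :
    Rel (!s) (π ⟨k, by omega⟩) (π ⟨k + 1, h⟩) ↔ k ∈ V s π := by
  rw [← not_iff_not (b := k ∈ V s π), ← rel_iff_notMem h]
  have hne : π ⟨k, by omega⟩ ≠ π ⟨k + 1, h⟩ := fun he => by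
    have := π.injective he
    rw [Fin.mk.injEq] at this
    omega
  unfold Rel
  cases s with
  | true =>
    rw [if_neg (by simp), if_pos rfl, not_lt]
    exact ⟨fun h => lt_of_le_of_ne h hne, fun h => h.le⟩
  | false =>
    rw [if_pos (by simp), if_neg (by simp), not_lt]
    exact ⟨fun h => lt_of_le_of_ne h hne.symm, fun h => h.le⟩

theorem Rel.trans {s : Bool} {n : ℕ} {x y z : Fin n} (h : Rel s x y) (h' : Rel s y z) :
    Rel s x z := by
  unfold Rel at *
  split_ifs at * with c
  · exact lt_trans h h'
  · exact lt_trans h' h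

theorem rel_of_adj {s : Bool} {n : ℕ} {π : Perm (Fin n)} {lo hi : ℕ}
    (h : ∀ (j : ℕ) (hj : j + 1 < n), lo ≤ j → j + 1 < hi → Rel s (π ⟨j, by omega⟩) (π ⟨j + 1, hj⟩)) :
    ∀ x y : Fin n, lo ≤ x → x < y → (y : ℕ) < hi → Rel s (π x) (π y) := by
  have key : ∀ (d x : ℕ) (hy : x + d + 1 < n), lo ≤ x → x + d + 1 < hi →
      Rel s (π ⟨x, by omega⟩) (π ⟨x + d + 1, hy⟩) := by
    intro d
    induction d with
    | zero => intro x hy h1 h2; exact h x hy h1 h2
    | succ d ih =>
      intro x hy h1 h2
      exact (ih x (by omega) h1 (by omega)).trans (h (x + d + 1) hy (by omega) h2)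
  intro x y h1 h2 h3
  have h4 : (x : ℕ) < y := h2
  have h5 := y.2
  have := key (y - x - 1) x (by omega) h1 (by omega)
  have e : (⟨x + (y - x - 1) + 1, by omega⟩ : Fin n) = y := Fin.ext (by simp only; omega)
  rw [e] at this
  exact this

/-- the blocks cut out by `J` -/
def bJ (J : Finset ℕ) {n : ℕ} (x : Fin n) : ℕ := (J.filter (fun j => j < (x : ℕ))).card

theorem bJ_mono (J : Finset ℕ) {n : ℕ} : Monotone (bJ J : Fin n → ℕ) := by
  intro x y hxy
  apply card_le_card
  intro j hj
  rw [mem_filter] at hj ⊢
  exact ⟨hj.1, lt_of_lt_of_le hj.2 hxy⟩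

theorem bJ_eq_iff {J : Finset ℕ} {n : ℕ} {x y : Fin n} (hxy : x < y) :
    bJ J x = bJ J y ↔ ∀ j ∈ J, ¬ ((x : ℕ) ≤ j ∧ j < y) := by
  have hsub : J.filter (fun j => j < (x : ℕ)) ⊆ J.filter (fun j => j < (y : ℕ)) := by
    intro j hj
    rw [mem_filter] at hj ⊢
    exact ⟨hj.1, lt_trans hj.2 hxy⟩
  constructor
  · intro h j hj hc
    have h1 := eq_of_subset_of_card_le hsub (le_of_eq h.symm)
    have h2 : j ∈ J.filter (fun j => j < (y : ℕ)) := by rw [mem_filter]; exact ⟨hj, hc.2⟩
    rw [← h1, mem_filter] at h2
    omega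
  · intro h
    unfold bJ
    congr 1
    apply subset_antisymm hsub
    intro j hj
    rw [mem_filter] at hj ⊢
    refine ⟨hj.1, ?_⟩
    by_contra hc
    exact h j hj.1 ⟨by omega, hj.2⟩

theorem Cl_bJ {s : Bool} {n : ℕ} {J : Finset ℕ} {π : Perm (Fin n)} :
    Cl s (bJ J) π ↔ Cyclic π ∧ V s π ⊆ J := by
  unfold Cl
  refine and_congr_right (fun _ => ?_)
  constructor
  · intro h k hk
    by_contra hkJ
    have h1 : k + 1 < n := by
      unfold V at hk
      rw [mem_filter] at hk
      exact hk.2.1
    have h2 := h ⟨k, by omega⟩ ⟨k + 1, h1⟩ (by rw [Fin.lt_def]; simp only; omega) (by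
      rw [bJ_eq_iff (by rw [Fin.lt_def]; simp only; omega)]
      intro j hj hc
      simp only at hc
      have : j = k := by omega
      exact hkJ (this ▸ hj))
    exact (rel_iff_notMem h1).1 h2 hk
  · intro h x y hxy hb
    rw [bJ_eq_iff hxy] at hb
    apply rel_of_adj (lo := x) (hi := y + 1) _ x y (le_refl _) hxy (Nat.lt_succ_self _)
    intro j hj h1 h2
    rw [rel_iff_notMem hj]
    intro hc
    exact hb j (h hc) ⟨h1, by omega⟩

open Classical in
/-- the number of cyclic permutations with `V s π = D` -/
noncomputable def g (s : Bool) (n : ℕ) (D : Finset ℕ) : ℕ :=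
  ((univ : Finset (Perm (Fin n))).filter (fun π => Cyclic π ∧ V s π = D)).card

theorem card_sub (s : Bool) (n : ℕ) (J : Finset ℕ) :
    Nat.card {π : Perm (Fin n) // Cl s (bJ J) π} = ∑ D ∈ J.powerset, g s n D := by
  classical
  rw [Nat.card_eq_fintype_card, Fintype.card_subtype]
  rw [card_eq_sum_card_fiberwise (f := fun π : Perm (Fin n) => V s π) (t := J.powerset)]
  · refine sum_congr rfl (fun D hD => ?_)
    unfold g
    congr 1
    ext π
    rw [mem_filter, mem_filter, mem_filter, Cl_bJ]
    rw [mem_powerset] at hD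
    constructor
    · rintro ⟨⟨_, h1, _⟩, h2⟩
      exact ⟨mem_univ _, h1, h2⟩
    · rintro ⟨_, h1, h2⟩
      exact ⟨⟨mem_univ _, h1, h2 ▸ hD⟩, h2⟩
  · intro π hπ
    rw [mem_coe, mem_filter, Cl_bJ] at hπ
    rw [mem_coe, mem_powerset]
    exact hπ.2.2

theorem g_eq {n : ℕ} (hn : n % 4 ≠ 2) (D : Finset ℕ) : g true n D = g false n D := by
  induction D using Finset.strongInduction with
  | H D ih =>
    have h1 : ∑ D' ∈ D.powerset, g true n D' = ∑ D' ∈ D.powerset, g false n D' := by
      rw [← card_sub, ← card_sub]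
      exact le_antisymm (card_le _ _ hn (bJ_mono D)) (card_le _ _ hn (bJ_mono D))
    have hD : D ∈ D.powerset := mem_powerset_self D
    rw [← add_sum_erase _ _ hD, ← add_sum_erase _ _ hD] at h1
    have h2 : ∑ D' ∈ D.powerset.erase D, g true n D' = ∑ D' ∈ D.powerset.erase D, g false n D' := by
      refine sum_congr rfl (fun D' hD' => ih D' ?_)
      rw [mem_erase, mem_powerset] at hD'
      exact lt_of_le_of_ne hD'.2 hD'.1
    omega

/-- the condition on the descent set for a `σ`-segmentation -/
def Good {k : ℕ} (σ : Fin k → Bool) (n : ℕ) (D : Finset ℕ) : Prop :=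
  ∃ e : Fin (k + 1) → ℕ, e 0 = 0 ∧ e (Fin.last k) = n ∧ Monotone e ∧
    ∀ i : Fin k, ∀ j : ℕ, e i.castSucc ≤ j → j + 1 < e i.succ → (σ i = true ↔ j ∉ D)

/-- `σ` or its complement -/
def tw (s : Bool) {k : ℕ} (σ : Fin k → Bool) : Fin k → Bool :=
  fun i => if s = true then σ i else !(σ i)

theorem seg_iff {k n : ℕ} (s : Bool) (σ : Fin k → Bool) (π : Perm (Fin n)) :
    HasSeg (tw s σ) π ↔ Good σ n (V s π) := by
  unfold HasSeg Good tw
  refine exists_congr (fun e => and_congr_right (fun _ => and_congr_right (fun hlast =>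
    and_congr_right (fun hm => forall_congr' (fun i => ?_)))))
  have hle : e i.succ ≤ n := by rw [← hlast]; exact hm (Fin.le_last _)
  constructor
  · intro h j h1 h2
    have h3 := h ⟨j, by omega⟩ ⟨j + 1, by omega⟩ h1 (by rw [Fin.lt_def]; simp only; omega) h2
    have h4 := rel_iff_notMem (s := s) (π := π) (k := j) (by omega)
    have h5 := rel_not_iff_mem (s := s) (π := π) (k := j) (by omega)
    unfold Rel at h4 h5
    cases hσ : σ i with
    | true =>
      rw [hσ] at h3
      have e1 : (if s = true then true else !true) = s := by cases s <;> rfl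
      simp only [e1] at h3
      exact ⟨fun _ => h4.1 h3, fun _ => rfl⟩
    | false =>
      rw [hσ] at h3
      have e1 : (if s = true then false else !false) = !s := by cases s <;> rfl
      simp only [e1] at h3
      exact ⟨fun h => Bool.noConfusion h, fun h => absurd (h5.1 h3) h⟩
  · intro h x y h1 h2 h3
    have h6 : ∀ t : Bool, t = (if s = true then σ i else !(σ i)) →
        Rel t (π x) (π y) := by
      intro t ht
      apply rel_of_adj (lo := e i.castSucc) (hi := e i.succ) _ x y h1 h2 h3
      intro j hj h4 h5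
      have h6 := h j h4 h5
      cases hσ : σ i with
      | true =>
        rw [hσ] at ht h6
        have e1 : (if s = true then true else !true) = s := by cases s <;> rfl
        rw [e1] at ht
        rw [ht, rel_iff_notMem hj]
        exact h6.1 rfl
      | false =>
        rw [hσ] at ht h6
        have e1 : (if s = true then false else !false) = !s := by cases s <;> rfl
        rw [e1] at ht
        rw [ht, rel_not_iff_mem hj]
        by_contra hc
        exact Bool.noConfusion (h6.2 hc)
    exact h6 _ rfl

theorem count_eq {k n : ℕ} (s : Bool) (σ : Fin k → Bool) :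
    count (tw s σ) n =
      ∑ D ∈ (range n).powerset, (open Classical in if Good σ n D then g s n D else 0) := by
  classical
  unfold count
  rw [Nat.card_eq_fintype_card, Fintype.card_subtype]
  rw [card_eq_sum_card_fiberwise (f := fun π : Perm (Fin n) => V s π) (t := (range n).powerset)]
  · refine sum_congr rfl (fun D hD => ?_)
    by_cases hG : Good σ n D
    · rw [if_pos hG]
      unfold g
      congr 1
      ext π
      rw [mem_filter, mem_filter, mem_filter, seg_iff]
      constructor
      · rintro ⟨⟨_, h1, _⟩, h2⟩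
        exact ⟨mem_univ _, h1, h2⟩
      · rintro ⟨_, h1, h2⟩
        exact ⟨⟨mem_univ _, h1, h2 ▸ hG⟩, h2⟩
    · rw [if_neg hG, card_eq_zero, filter_eq_empty_iff]
      intro π hπ h2
      rw [mem_filter, seg_iff, h2] at hπ
      exact hG hπ.2.2
  · intro π _
    rw [mem_coe, mem_powerset]
    exact filter_subset _ _

/-- For every signature `σ` of length at least `2` and every `n` with `n % 4 ≠ 2`, the `σ`-class and
the `σ_c`-class have the same number of cyclic permutations of `n` letters. -/
theorem result : ∀ k : ℕ, 2 ≤ k → ∀ σ : Fin k → Bool, ∀ n : ℕ, 1 ≤ n → n % 4 ≠ 2 →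
    count σ n = count (fun i => !(σ i)) n := by
  intro k _ σ n _ hn
  have e1 : tw true σ = σ := by funext i; unfold tw; rw [if_pos rfl]
  have e2 : tw false σ = fun i => !(σ i) := by funext i; unfold tw; rw [if_neg (by simp)]
  rw [← e2, ← e1, count_eq true σ, e1, count_eq false σ]
  refine sum_congr rfl (fun D _ => ?_)
  rw [g_eq hn]

end Pool.Agent.Results.MP_d71793_co.ComplementSignature
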